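import Mathlib

/-!
Hierarchy of minimal images of a word in a finite automaton.
-/

namespace Pool.Agent.Lib.SmallRank

open Finset

variable {Q A : Type} (δ : Q → A → Q)

/-- action of a word on a state -/
def act (u : List A) (q : Q) : Q := u.foldl δ q

@[simp] lemma act_nil (q : Q) : act δ [] q = q := rfl

lemma act_append (u v : List A) (q : Q) : act δ (u ++ v) q = act δ v (act δ u q) := by
  simp [act, List.foldl_append]

/-- words built from blocks `u ++ f` with `u` of length at most `j` -/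
inductive Gen (f : List A) (j : ℕ) : List A → Prop
  | nil : Gen f j []
  | cons (u m : List A) : u.length ≤ j → Gen f j m → Gen f j (u ++ f ++ m)

lemma Gen.append {f : List A} {j : ℕ} {m m' : List A} (h : Gen f j m) (h' : Gen f j m') :
    Gen f j (m ++ m') := by
  induction h with
  | nil => simpa using h'
  | cons u m hu _ ih =>
    rw [List.append_assoc (u ++ f)]
    exact Gen.cons u _ hu ih

lemma gen_pow {f : List A} {j : ℕ} {v : List A} (h : Gen f j v) (k : ℕ) :
    ∃ m, Gen f j m ∧ ∀ x, act δ m x = (act δ v)^[k] x := by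
  induction k with
  | zero => exact ⟨[], Gen.nil, fun x => rfl⟩
  | succ k ih =>
    obtain ⟨m, hm, he⟩ := ih
    refine ⟨v ++ m, h.append hm, fun x => ?_⟩
    rw [act_append, he, Function.iterate_succ_apply]

variable [Fintype Q] [DecidableEq Q]

/-- image of the state set under a word -/
def im (u : List A) : Finset Q := univ.image (act δ u)

lemma act_mem_im (u : List A) (q : Q) : act δ u q ∈ im δ u := mem_image_of_mem _ (mem_univ q)

lemma im_append (u v : List A) : im δ (u ++ v) = (im δ u).image (act δ v) := by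
  unfold im
  rw [image_image]
  congr 1
  funext q
  exact act_append δ u v q

lemma gen_maps {f : List A} {j : ℕ} {m : List A} (h : Gen f j m) :
    ∀ x ∈ im δ f, act δ m x ∈ im δ f := by
  induction h with
  | nil => intro x hx; simpa using hx
  | cons u m _ _ ih =>
    intro x _
    rw [act_append, act_append]
    exact ih _ (act_mem_im δ f _)

lemma exists_opt (f : List A) (j : ℕ) : ∃ o, Gen f j o ∧
    ∀ m, Gen f j m → (im δ (f ++ o)).card ≤ (im δ (f ++ m)).card := by
  classical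
  have hex : ∃ c, ∃ o, Gen f j o ∧ (im δ (f ++ o)).card = c := ⟨_, [], Gen.nil, rfl⟩
  obtain ⟨o, ho, hc⟩ := Nat.find_spec hex
  refine ⟨o, ho, fun m hm => ?_⟩
  rw [hc]
  exact Nat.find_min' hex ⟨m, hm, rfl⟩

/-- an optimal continuation -/
noncomputable def opt (f : List A) (j : ℕ) : List A := (exists_opt δ f j).choose

lemma opt_gen (f : List A) (j : ℕ) : Gen f j (opt δ f j) := (exists_opt δ f j).choose_spec.1

lemma opt_min (f : List A) (j : ℕ) {m : List A} (h : Gen f j m) :
    (im δ (f ++ opt δ f j)).card ≤ (im δ (f ++ m)).card := (exists_opt δ f j).choose_spec.2 m h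

/-- the words of the hierarchy -/
noncomputable def ff (w : List A) : ℕ → List A
  | 0 => w
  | j + 1 => ff w j ++ opt δ (ff w j) j

/-- the images of the hierarchy -/
noncomputable def C (w : List A) (j : ℕ) : Finset Q := im δ (ff δ w j)

variable (w : List A)

lemma C_zero : C δ w 0 = im δ w := rfl

lemma C_succ (j : ℕ) : C δ w (j + 1) = (C δ w j).image (act δ (opt δ (ff δ w j) j)) :=
  im_append δ _ _

lemma gen_mapsC {j : ℕ} {m : List A} (h : Gen (ff δ w j) j m) :
    ∀ x ∈ C δ w j, act δ m x ∈ C δ w j := gen_maps δ h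

lemma C_succ_sub (j : ℕ) : C δ w (j + 1) ⊆ C δ w j := by
  intro x hx
  rw [C_succ, mem_image] at hx
  obtain ⟨y, hy, rfl⟩ := hx
  exact gen_mapsC δ w (opt_gen δ _ _) y hy

lemma C_anti {i j : ℕ} (h : i ≤ j) : C δ w j ⊆ C δ w i := by
  induction h with
  | refl => exact Subset.refl _
  | step _ ih => exact (C_succ_sub δ w _).trans ih

lemma gen_inj {j : ℕ} {m : List A} (h : Gen (ff δ w j) j m) :
    Set.InjOn (act δ m) (C δ w (j + 1)) := by
  rw [← card_image_iff]
  refine le_antisymm card_image_le ?_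
  have h1 := opt_min δ (ff δ w j) j ((opt_gen δ (ff δ w j) j).append h)
  rw [← List.append_assoc, im_append δ (ff δ w j ++ opt δ (ff δ w j) j)] at h1
  exact h1

lemma iterate_fix (S : Finset Q) (φ : Q → Q) (hm : ∀ x ∈ S, φ x ∈ S) (hi : Set.InjOn φ S) :
    ∃ k, ∀ x ∈ S, φ^[k + 1] x = x := by
  have hmt : Set.MapsTo φ (S : Set Q) (S : Set Q) := fun x hx => hm x hx
  have hinj : Function.Injective (hmt.restrict φ _ _) := (hmt.restrict_inj).2 hi
  have hbij : Function.Bijective (hmt.restrict φ _ _) := Finite.injective_iff_bijective.1 hinj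
  let σ : Equiv.Perm (S : Set Q) := Equiv.ofBijective _ hbij
  obtain ⟨k, hk⟩ : ∃ k, orderOf σ = k + 1 := ⟨orderOf σ - 1, by have := orderOf_pos σ; omega⟩
  refine ⟨k, fun x hx => ?_⟩
  have h1 : σ ^ (k + 1) = 1 := by rw [← hk]; exact pow_orderOf_eq_one σ
  have h2 : (σ ^ (k + 1)) ⟨x, hx⟩ = ⟨x, hx⟩ := by rw [h1]; rfl
  rw [Equiv.Perm.coe_pow] at h2
  have h3 := hmt.coe_iterate_restrict ⟨x, hx⟩ (k + 1)
  have h4 : (⇑σ) = hmt.restrict φ _ _ := rfl
  rw [h4] at h2
  rw [h2] at h3
  exact h3.symm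

/-- recurrence -/
lemma recur {j : ℕ} {m : List A} (h : Gen (ff δ w j) j m) :
    ∃ m', Gen (ff δ w j) j m' ∧ (∀ x ∈ C δ w (j + 1), act δ m' (act δ m x) = x) ∧
      ∀ x ∈ C δ w j, act δ m' x ∈ C δ w (j + 1) := by
  have ho := opt_gen δ (ff δ w j) j
  have hv := h.append ho
  have hO : ∀ x ∈ C δ w j, act δ (opt δ (ff δ w j) j) x ∈ C δ w (j + 1) := fun x hx => by
    rw [C_succ]
    exact mem_image_of_mem _ hx
  have hφ : ∀ x ∈ C δ w (j + 1), act δ (m ++ opt δ (ff δ w j) j) x ∈ C δ w (j + 1) :=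
    fun x hx => by
      rw [act_append]
      exact hO _ (gen_mapsC δ w h x (C_succ_sub δ w j hx))
  obtain ⟨k, hk⟩ := iterate_fix (C δ w (j + 1)) (act δ (m ++ opt δ (ff δ w j) j)) hφ
    (gen_inj δ w hv)
  obtain ⟨m1, hm1, he⟩ := gen_pow δ hv k
  refine ⟨opt δ (ff δ w j) j ++ m1, ho.append hm1, fun x hx => ?_, fun x hx => ?_⟩
  · rw [act_append, he, ← act_append, ← Function.iterate_succ_apply]
    exact hk x hx
  · rw [act_append, he]
    exact Set.MapsTo.iterate (s := (C δ w (j + 1) : Set Q)) (fun y hy => hφ y hy) k (hO x hx)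

/-- closure under the generated words, given the tail of `ff l` -/
lemma closure_gen (N : Q → Q → Prop) (t : ℕ)
    (hN : ∀ u : List A, u.length < t → ∀ p ∈ C δ w u.length, ∀ q ∈ C δ w u.length, N p q →
      N (act δ (u ++ w) p) (act δ (u ++ w) q))
    {l : ℕ} (hl : l < t) {g : List A} (hg : ff δ w l = w ++ g)
    (hgN : ∀ p ∈ C δ w 0, ∀ q ∈ C δ w 0, N p q → N (act δ g p) (act δ g q))
    {m : List A} (hm : Gen (ff δ w l) l m) :
    ∀ p ∈ C δ w l, ∀ q ∈ C δ w l, N p q → N (act δ m p) (act δ m q) := by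
  induction hm with
  | nil => intro p _ q _ h; simpa using h
  | cons u m hu _ ih =>
    intro p hp q hq h
    have h1 := hN u (by omega) p (C_anti δ w hu hp) q (C_anti δ w hu hq) h
    rw [act_append, act_append] at h1
    have h2 := hgN _ (act_mem_im δ w _) _ (act_mem_im δ w _) h1
    rw [← act_append δ w g, ← act_append δ w g, ← hg] at h2
    rw [act_append, act_append, act_append δ (u ++ _), act_append]
    exact ih _ (act_mem_im δ _ _) _ (act_mem_im δ _ _) h2

lemma closure_tail (N : Q → Q → Prop) (t : ℕ)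
    (hN : ∀ u : List A, u.length < t → ∀ p ∈ C δ w u.length, ∀ q ∈ C δ w u.length, N p q →
      N (act δ (u ++ w) p) (act δ (u ++ w) q)) :
    ∀ l ≤ t, ∃ g, ff δ w l = w ++ g ∧
      ∀ p ∈ C δ w 0, ∀ q ∈ C δ w 0, N p q → N (act δ g p) (act δ g q) := by
  intro l
  induction l with
  | zero => intro _; exact ⟨[], by simp [ff], fun p _ q _ h => by simpa using h⟩
  | succ l ih =>
    intro hl
    obtain ⟨g, hg, hgN⟩ := ih (by omega)
    refine ⟨g ++ opt δ (ff δ w l) l, by rw [← List.append_assoc, ← hg]; rfl, ?_⟩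
    intro p hp q hq h
    rw [act_append, act_append]
    have hC : ∀ x ∈ C δ w 0, act δ g x ∈ C δ w l := by
      intro x hx
      rw [C_zero, im, mem_image] at hx
      obtain ⟨y, -, rfl⟩ := hx
      rw [← act_append, ← hg]
      exact act_mem_im δ _ _
    exact closure_gen δ w N t hN (by omega) hg hgN (opt_gen δ _ _) _ (hC p hp) _ (hC q hq)
      (hgN p hp q hq h)

lemma closure (N : Q → Q → Prop) (t : ℕ)
    (hN : ∀ u : List A, u.length < t → ∀ p ∈ C δ w u.length, ∀ q ∈ C δ w u.length, N p q →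
      N (act δ (u ++ w) p) (act δ (u ++ w) q))
    {l : ℕ} (hl : l < t) {m : List A} (hm : Gen (ff δ w l) l m) :
    ∀ p ∈ C δ w l, ∀ q ∈ C δ w l, N p q → N (act δ m p) (act δ m q) := by
  obtain ⟨g, hg, hgN⟩ := closure_tail δ w N t hN l hl.le
  exact closure_gen δ w N t hN hl hg hgN hm

/-- a class function for level `j`, with representatives maximising `σ` -/
lemma exists_kappa (σ : Q → ℕ) (j : ℕ) : ∃ κ : Q → Q,
    (∀ b ∈ C δ w (j + 1), ∀ u : List A, u.length ≤ j → κ (act δ u b) = κ b) ∧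
    (∀ b ∈ C δ w (j + 1), κ b ∈ C δ w (j + 1) ∧ σ b ≤ σ (κ b) ∧
      ∃ m, Gen (ff δ w j) j m ∧ act δ m b = κ b) ∧
    ∀ b ∈ C δ w (j + 1), ∀ m, Gen (ff δ w j) j m → act δ m b ∈ C δ w (j + 1) →
      κ (act δ m b) = κ b := by
  classical
  rcases isEmpty_or_nonempty Q with hQ | hQ
  · exact ⟨id, fun p _ => (hQ.false p).elim, fun p _ => (hQ.false p).elim,
      fun a _ => (hQ.false a).elim⟩
  let cls : Q → Q → Prop := fun a b =>
    b ∈ C δ w (j + 1) ∧ ∃ m, Gen (ff δ w j) j m ∧ act δ m a = b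
  let rep : Q → Q := fun a => Classical.epsilon fun y => cls a y ∧ ∀ y', cls a y' → σ y' ≤ σ y
  have hself : ∀ a ∈ C δ w (j + 1), cls a a := fun a ha => ⟨ha, [], Gen.nil, rfl⟩
  have hrep : ∀ a ∈ C δ w (j + 1), cls a (rep a) ∧ ∀ y', cls a y' → σ y' ≤ σ (rep a) := by
    intro a ha
    refine Classical.epsilon_spec (p := fun y => cls a y ∧ ∀ y', cls a y' → σ y' ≤ σ y) ?_
    obtain ⟨y, hy, hmax⟩ := exists_max_image (univ.filter (cls a)) σ
      ⟨a, mem_filter.2 ⟨mem_univ _, hself a ha⟩⟩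
    exact ⟨y, (mem_filter.1 hy).2, fun y' h' => hmax y' (mem_filter.2 ⟨mem_univ _, h'⟩)⟩
  have hsub : ∀ a b, (∃ m, Gen (ff δ w j) j m ∧ act δ m a = b) → ∀ c, cls b c → cls a c := by
    rintro a b ⟨m, hm, rfl⟩ c ⟨hc, m', hm', rfl⟩
    exact ⟨hc, m ++ m', hm.append hm', act_append δ _ _ _⟩
  have heq : ∀ a ∈ C δ w (j + 1), ∀ m, Gen (ff δ w j) j m → rep (act δ m a) = rep a := by
    intro a ha m hm
    obtain ⟨m', hm', he, -⟩ := recur δ w hm
    have : cls (act δ m a) = cls a := funext fun c =>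
      propext ⟨hsub a _ ⟨m, hm, rfl⟩ c, hsub _ a ⟨m', hm', he a ha⟩ c⟩
    simp only [rep, this]
  have h1 : ∀ b ∈ C δ w (j + 1), ∀ u : List A, u.length ≤ j →
      rep (act δ (ff δ w (j + 1)) (act δ u b)) = rep b := by
    intro b hb u hu
    rw [← heq b hb _ (Gen.cons u _ hu (opt_gen δ (ff δ w j) j)), List.append_assoc, act_append]
    rfl
  have h0 : ∀ b ∈ C δ w (j + 1), rep (act δ (ff δ w (j + 1)) b) = rep b := fun b hb =>
    h1 b hb [] (Nat.zero_le _)
  refine ⟨fun z => rep (act δ (ff δ w (j + 1)) z), fun b hb u hu => ?_, fun b hb => ?_,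
    fun b hb m hm hmb => ?_⟩
  · dsimp only
    rw [h1 b hb u hu, h0 b hb]
  · dsimp only
    rw [h0 b hb]
    exact ⟨(hrep b hb).1.1, (hrep b hb).2 b (hself b hb), (hrep b hb).1.2⟩
  · dsimp only
    rw [h0 b hb, h0 _ hmb, heq b hb m hm]

end Pool.Agent.Lib.SmallRank
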