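import Pool.Agent.Lib.MP_30c8ab_lc.Mid

/-!
Merging distances, gap counting and the greedy step.
-/

namespace Pool.Agent.Lib.SmallRank

open Finset

lemma gap_count (Vals : Finset ℕ) (K : ℕ) (G : ℕ → Finset ℕ)
    (hG : ∀ t v, v ∈ Vals → t < v → (∀ v' ∈ Vals, v' < v → v' + t < v) → v ∈ G t ∧ t < K)
    {v : ℕ} (hv : v ∈ Vals) : v ≤ ∑ t ∈ range K, (G t).card := by
  classical
  have hex : ∀ x : ℕ, x < v → ∃ y, y ∈ Vals ∧ x < y := fun x hx => ⟨v, hv, hx⟩
  let nx : ℕ → ℕ := fun x => if h : x < v then Nat.find (hex x h) else 0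
  have h1 : ∀ x, x < v → nx x ∈ Vals ∧ x < nx x ∧ ∀ y ∈ Vals, y < nx x → y ≤ x := by
    intro x hx
    simp only [nx, dif_pos hx]
    refine ⟨(Nat.find_spec (hex x hx)).1, (Nat.find_spec (hex x hx)).2, fun y hy hlt => ?_⟩
    have := Nat.find_min (hex x hx) hlt
    simp only [not_and, not_lt] at this
    exact this hy
  rw [← card_sigma]
  conv_lhs => rw [← card_range v]
  refine card_le_card_of_injOn (fun x => (⟨nx x - x - 1, nx x⟩ : Σ _ : ℕ, ℕ)) ?_ ?_
  · intro x hx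
    have hx' : x < v := by simpa using hx
    obtain ⟨a, b, c⟩ := h1 x hx'
    have := hG (nx x - x - 1) (nx x) a (by omega) (fun y hy hlt => by
      have := c y hy hlt
      omega)
    simp only [coe_sigma, Set.mem_sigma_iff, mem_coe, mem_range]
    exact ⟨this.2, this.1⟩
  · intro x hx y hy hxy
    have hx' : x < v := by simpa using hx
    have hy' : y < v := by simpa using hy
    have a := (h1 x hx').2.1
    have b := (h1 y hy').2.1
    simp only [Sigma.mk.injEq, heq_eq_eq] at hxy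
    omega

variable {Q A : Type} (δ : Q → A → Q) [Fintype Q] [DecidableEq Q] (w : List A)

/-- merging along admissible edges, with total length -/
inductive Mer : ℕ → Q → Q → Prop
  | diag (p : Q) : Mer 0 p p
  | step (τ : ℕ) (u : List A) (p q : Q) : u.length ≤ Fintype.card Q → p ∈ C δ w u.length →
      q ∈ C δ w u.length → Mer τ (act δ (u ++ w) p) (act δ (u ++ w) q) →
      Mer (τ + u.length + w.length) p q

lemma act_R (u : List A) (p : Q) : act δ (u ++ w) p ∈ C δ w 0 := by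
  rw [act_append]
  exact act_mem_im δ w _

lemma mer_word {τ : ℕ} {p q : Q} (h : Mer δ w τ p q) : ∃ m : List A, m.length = τ ∧
    act δ m p = act δ m q ∧ ∀ x ∈ C δ w 0, act δ m x ∈ C δ w 0 := by
  induction h with
  | diag p => exact ⟨[], rfl, rfl, fun x hx => hx⟩
  | step τ u p q _ _ _ _ ih =>
    obtain ⟨m, h1, h2, h3⟩ := ih
    refine ⟨u ++ w ++ m, by simp only [List.length_append, h1]; omega, ?_, fun x _ => ?_⟩
    · rw [act_append δ (u ++ w), act_append δ (u ++ w), h2]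
    · rw [act_append δ (u ++ w)]
      exact h3 _ (act_R δ w u x)

lemma mer_inv {τ : ℕ} {p q : Q} (h : Mer δ w τ p q) : τ = 0 ∨ ∃ τ' : ℕ, ∃ u : List A,
    τ = τ' + u.length + w.length ∧ u.length ≤ Fintype.card Q ∧ p ∈ C δ w u.length ∧
      q ∈ C δ w u.length ∧ Mer δ w τ' (act δ (u ++ w) p) (act δ (u ++ w) q) := by
  cases h with
  | diag => exact Or.inl rfl
  | step τ u _ _ h1 h2 h3 h4 => exact Or.inr ⟨τ, u, rfl, h1, h2, h3, h4⟩

lemma mer_fin {s : List A} (hs : ∀ x y, act δ s x = act δ s y) {p q : Q} (hp : p ∈ C δ w 0)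
    (hq : q ∈ C δ w 0) : ∃ τ, Mer δ w τ p q := by
  by_contra hno
  obtain ⟨g, hg, hgN⟩ := closure_tail δ w (fun p q => ¬ ∃ τ, Mer δ w τ p q) (Fintype.card Q + 1)
    (fun u hu p hp q hq h ⟨τ, hτ⟩ => h ⟨_, Mer.step τ u p q (by omega) hp hq hτ⟩) _ le_rfl
  have hC : ∀ x ∈ C δ w 0, act δ g x ∈ C δ w (Fintype.card Q + 1) := by
    intro x hx
    rw [C_zero, im, mem_image] at hx
    obtain ⟨y, -, rfl⟩ := hx
    rw [← act_append, ← hg]
    exact act_mem_im δ _ _
  have he := card_le_one.1 (top_single δ w hs) _ (hC p hp) _ (hC q hq)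
  refine hgN p hp q hq hno ⟨0, ?_⟩
  rw [he]
  exact Mer.diag _

/-- merging distance -/
noncomputable def dd (p q : Q) : ℕ := sInf {τ | Mer δ w τ p q}

lemma dd_le {τ : ℕ} {p q : Q} (h : Mer δ w τ p q) : dd δ w p q ≤ τ := Nat.sInf_le h

lemma dd_mer {s : List A} (hs : ∀ x y, act δ s x = act δ s y) {p q : Q} (hp : p ∈ C δ w 0)
    (hq : q ∈ C δ w 0) : Mer δ w (dd δ w p q) p q :=
  Nat.sInf_mem (s := {τ | Mer δ w τ p q}) (mer_fin δ w hs hp hq)

lemma dd_step {s : List A} (hs : ∀ x y, act δ s x = act δ s y) (u : List A) {p q : Q}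
    (hu : u.length ≤ Fintype.card Q) (hp : p ∈ C δ w u.length) (hq : q ∈ C δ w u.length) :
    dd δ w p q ≤ dd δ w (act δ (u ++ w) p) (act δ (u ++ w) q) + u.length + w.length :=
  dd_le δ w (Mer.step _ u p q hu hp hq (dd_mer δ w hs (act_R δ w u p) (act_R δ w u q)))

lemma mer_symm {τ : ℕ} {p q : Q} (h : Mer δ w τ p q) : Mer δ w τ q p := by
  induction h with
  | diag p => exact Mer.diag p
  | step τ u p q h1 h2 h3 _ ih => exact Mer.step τ u q p h1 h3 h2 ih

lemma dd_symm (p q : Q) : dd δ w p q = dd δ w q p := by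
  unfold dd
  congr 1
  ext τ
  exact ⟨mer_symm δ w, mer_symm δ w⟩

/-- values of the merging distance -/
noncomputable def Vals : Finset ℕ := (C δ w 0 ×ˢ C δ w 0).image fun x => dd δ w x.1 x.2

lemma mem_Vals {p q : Q} (hp : p ∈ C δ w 0) (hq : q ∈ C δ w 0) : dd δ w p q ∈ Vals δ w :=
  mem_image.2 ⟨(p, q), mem_product.2 ⟨hp, hq⟩, rfl⟩

/-- values preceded by a gap longer than `t` -/
noncomputable def GG (t : ℕ) : Finset ℕ :=
  (Vals δ w).filter fun v => t < v ∧ ∀ v' ∈ Vals δ w, v' < v → v' + t < v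

lemma GG_card (t : ℕ) : (GG δ w t).card ≤ (im δ w).card.choose 2 := by
  rw [← Sym2.card_image_offDiag]
  refine le_trans (card_le_card ?_)
    (card_image_le (f := Sym2.lift ⟨fun p q => dd δ w p q, dd_symm δ w⟩))
  intro v hv
  obtain ⟨hv1, hv2, -⟩ := mem_filter.1 hv
  obtain ⟨⟨p, q⟩, hpq, he⟩ := mem_image.1 hv1
  obtain ⟨hp, hq⟩ := mem_product.1 hpq
  dsimp only at hp hq he
  have hne : p ≠ q := by
    rintro rfl
    have := dd_le δ w (Mer.diag (δ := δ) (w := w) p)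
    omega
  exact mem_image.2 ⟨s(p, q), mem_image.2 ⟨(p, q), mem_offDiag.2 ⟨hp, hq, hne⟩, rfl⟩, he⟩

lemma GG_struct {s : List A} (hs : ∀ x y, act δ s x = act δ s y) (hw : w ≠ []) {j v : ℕ}
    (hv : v ∈ GG δ w (w.length + j)) : j < Fintype.card Q ∧
      ∃ x : Q × Q, x.1 ∈ C δ w (j + 1) ∧ x.2 ∈ C δ w (j + 1) ∧ dd δ w x.1 x.2 = v := by
  obtain ⟨hv1, hv2, hv3⟩ := mem_filter.1 hv
  obtain ⟨⟨p, q⟩, hpq, he⟩ := mem_image.1 hv1
  obtain ⟨hp, hq⟩ := mem_product.1 hpq
  dsimp only at hp hq he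
  have hl : 0 < w.length := List.length_pos_of_ne_nil hw
  rcases mer_inv δ w (dd_mer δ w hs hp hq) with h0 | ⟨τ, u, h1, h2, h3, h4, h5⟩
  · omega
  have a := dd_le δ w h5
  have b := dd_step δ w hs u h2 h3 h4
  have c := hv3 _ (mem_Vals δ w (act_R δ w u p) (act_R δ w u q)) (by omega)
  have hj : j + 1 ≤ u.length := by omega
  exact ⟨by omega, (p, q), C_anti δ w hj h3, C_anti δ w hj h4, he⟩

lemma GG_closed {s : List A} (hs : ∀ x y, act δ s x = act δ s y) (hw : w ≠ []) {j v : ℕ}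
    (hv : v ∈ GG δ w (w.length + j)) {m : List A} (hm : Gen (ff δ w j) j m) :
    ∀ p ∈ C δ w j, ∀ q ∈ C δ w j, v ≤ dd δ w p q → v ≤ dd δ w (act δ m p) (act δ m q) := by
  have hj := (GG_struct δ w hs hw hv).1
  obtain ⟨-, -, hv3⟩ := mem_filter.1 hv
  refine closure δ w (fun p q => v ≤ dd δ w p q) (j + 1) ?_ (Nat.lt_succ_self j) hm
  intro u hu p hp q hq h
  by_contra hlt
  have b := dd_step δ w hs u (by omega) hp hq
  have c := hv3 _ (mem_Vals δ w (act_R δ w u p) (act_R δ w u q)) (by omega)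
  omega

open Classical in
/-- the last level (up to `n`) containing a state -/
noncomputable def sg (a : Q) : ℕ := Nat.findGreatest (fun i => a ∈ C δ w i) (Fintype.card Q)

lemma sg_le (a : Q) : sg δ w a ≤ Fintype.card Q := Nat.findGreatest_le _

lemma le_sg {a : Q} {i : ℕ} (hi : i ≤ Fintype.card Q) (ha : a ∈ C δ w i) : i ≤ sg δ w a := by
  classical
  exact Nat.le_findGreatest hi ha

lemma mem_sg {a : Q} (ha : a ∈ C δ w 0) : a ∈ C δ w (sg δ w a) := by
  classical
  exact Nat.findGreatest_spec (P := fun i => a ∈ C δ w i) (Nat.zero_le _) ha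

lemma GG_level {s : List A} (hs : ∀ x y, act δ s x = act δ s y) (hw : w ≠ []) (j : ℕ)
    {κ : Q → Q}
    (h2 : ∀ b ∈ C δ w (j + 1), κ b ∈ C δ w (j + 1) ∧ sg δ w b ≤ sg δ w (κ b) ∧
      ∃ m, Gen (ff δ w j) j m ∧ act δ m b = κ b)
    (h3 : ∀ b ∈ C δ w (j + 1), ∀ m, Gen (ff δ w j) j m → act δ m b ∈ C δ w (j + 1) →
      κ (act δ m b) = κ b) :
    (GG δ w (w.length + j)).card ≤
      ∑ q ∈ C δ w (j + 1), ((C δ w (sg δ w q)).image κ).card := by
  classical
  obtain ⟨e, he1, he2, he3⟩ := recur δ w (Gen.nil (f := ff δ w j) (j := j))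
  have hA : ∀ p ∈ C δ w (j + 1), ∀ q ∈ C δ w (j + 1), sg δ w (κ q) ≤ sg δ w (κ p) →
      ∃ m, Gen (ff δ w j) j m ∧ act δ m q ∈ C δ w (j + 1) ∧
        act δ m p ∈ (C δ w (sg δ w (act δ m q))).image κ := by
    intro p hp q hq hle
    obtain ⟨a1, -, m, a2, a3⟩ := h2 p hp
    have hm := a2.append he1
    have b1 : act δ (m ++ e) q ∈ C δ w (j + 1) := by
      rw [act_append]
      exact he3 _ (gen_mapsC δ w a2 _ (C_succ_sub δ w j hq))
    have b2 : act δ (m ++ e) p = κ p := by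
      rw [act_append, a3]
      exact he2 _ a1
    refine ⟨m ++ e, hm, b1, ?_⟩
    have b3 : κ (κ p) = κ p := by
      have := h3 p hp _ hm (b2 ▸ a1)
      rwa [b2] at this
    have b4 := (h2 _ b1).2.1
    rw [h3 q hq _ hm b1] at b4
    rw [b2]
    exact mem_image.2 ⟨κ p, C_anti δ w (b4.trans hle)
      (mem_sg δ w (C_anti δ w (Nat.zero_le _) a1)), b3⟩
  have h1 : ∀ v ∈ GG δ w (w.length + j), ∃ x : Q × Q, ∃ m, x.1 ∈ C δ w (j + 1) ∧
      x.2 ∈ C δ w (j + 1) ∧ dd δ w x.1 x.2 = v ∧ Gen (ff δ w j) j m ∧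
      act δ m x.2 ∈ C δ w (j + 1) ∧
        act δ m x.1 ∈ (C δ w (sg δ w (act δ m x.2))).image κ := by
    intro v hv
    obtain ⟨-, x, a, b, c⟩ := GG_struct δ w hs hw hv
    rcases le_total (sg δ w (κ x.2)) (sg δ w (κ x.1)) with h | h
    · obtain ⟨m, d⟩ := hA _ a _ b h
      exact ⟨x, m, a, b, c, d⟩
    · obtain ⟨m, d⟩ := hA _ b _ a h
      exact ⟨(x.2, x.1), m, b, a, (dd_symm δ w _ _).trans c, d⟩
  choose x m hx using h1
  have hle : ∀ v hv v' hv', act δ (m v hv) (x v hv).1 = act δ (m v' hv') (x v' hv').1 →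
      act δ (m v hv) (x v hv).2 = act δ (m v' hv') (x v' hv').2 → v' ≤ v := by
    intro v hv v' hv' e1 e2
    obtain ⟨a1, a2, a3, a4, -⟩ := hx v hv
    obtain ⟨b1, b2, b3, b4, -⟩ := hx v' hv'
    have c := GG_closed δ w hs hw hv' b4 _ (C_succ_sub δ w j b1) _ (C_succ_sub δ w j b2) b3.ge
    rw [← e1, ← e2] at c
    obtain ⟨m', hm', hfix, -⟩ := recur δ w a4
    have d := GG_closed δ w hs hw hv' hm' _ (gen_mapsC δ w a4 _ (C_succ_sub δ w j a1)) _
      (gen_mapsC δ w a4 _ (C_succ_sub δ w j a2)) c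
    rw [hfix _ a1, hfix _ a2, a3] at d
    exact d
  rw [← card_sigma, ← card_attach]
  refine card_le_card_of_injOn (fun v => (⟨act δ (m v.1 v.2) (x v.1 v.2).2,
    act δ (m v.1 v.2) (x v.1 v.2).1⟩ : Σ _ : Q, Q)) ?_ ?_
  · intro v _
    obtain ⟨-, -, -, -, a5⟩ := hx v.1 v.2
    exact mem_coe.2 (mem_sigma.2 a5)
  · intro v _ v' _ he
    simp only [Sigma.mk.injEq, heq_eq_eq] at he
    exact Subtype.ext
      (le_antisymm (hle _ v'.2 _ v.2 he.2.symm he.1.symm) (hle _ v.2 _ v'.2 he.2 he.1))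

lemma dd_bound {s : List A} (hs : ∀ x y, act δ s x = act δ s y) (hw : w ≠ []) {p q : Q}
    (hp : p ∈ C δ w 0) (hq : q ∈ C δ w 0) :
    dd δ w p q ≤ w.length * (im δ w).card.choose 2 + 2 * Fintype.card Q * (im δ w).card := by
  set n := Fintype.card Q with hn
  choose κ hκ1 hκ2 hκ3 using exists_kappa δ w (sg δ w)
  have h0 := gap_count (Vals δ w) (w.length + n) (GG δ w) (fun t v h1 h2 h3 => by
    have hv : v ∈ GG δ w t := mem_filter.2 ⟨h1, h2, h3⟩
    refine ⟨hv, ?_⟩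
    by_contra hlt
    obtain ⟨j, rfl⟩ : ∃ j, t = w.length + j := ⟨t - w.length, by omega⟩
    have := (GG_struct δ w hs hw hv).1
    omega) (mem_Vals δ w hp hq)
  rw [sum_range_add] at h0
  have h1 : ∑ t ∈ range w.length, (GG δ w t).card ≤ w.length * (im δ w).card.choose 2 := by
    have := sum_le_card_nsmul (range w.length) (fun t => (GG δ w t).card) _
      fun t _ => GG_card δ w t
    rwa [card_range, smul_eq_mul] at this
  have h2 : ∑ j ∈ range n, (GG δ w (w.length + j)).card ≤ 2 * n * (im δ w).card := by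
    calc ∑ j ∈ range n, (GG δ w (w.length + j)).card
        ≤ ∑ j ∈ range n, ∑ q ∈ im δ w,
            if j < sg δ w q then ((C δ w (sg δ w q)).image (κ j)).card else 0 := by
          refine sum_le_sum fun j hj => (GG_level δ w hs hw j (hκ2 j) (hκ3 j)).trans ?_
          rw [← sum_filter]
          refine sum_le_sum_of_subset fun q hq => mem_filter.2 ⟨?_, ?_⟩
          · exact C_anti δ w (Nat.zero_le _) hq
          · exact le_sg δ w (mem_range.1 hj) hq
      _ = ∑ q ∈ im δ w, ∑ j ∈ range n,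
            if j < sg δ w q then ((C δ w (sg δ w q)).image (κ j)).card else 0 := sum_comm
      _ ≤ ∑ _q ∈ im δ w, 2 * n := by
          refine sum_le_sum fun q _ => ?_
          have hq := sg_le δ w q
          have a := sum_classes δ hs (C δ w (sg δ w q)) (sg δ w q) κ
            fun j hj b hb => hκ1 j b (C_anti δ w hj hb)
          rw [← sum_filter]
          refine (sum_le_sum_of_subset (t := range (sg δ w q)) fun j hj => ?_).trans (by omega)
          exact mem_range.2 (mem_filter.1 hj).2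
      _ = _ := by rw [sum_const, smul_eq_mul, mul_comm]
  omega

omit [Fintype Q] in
lemma greedy {B : ℕ} (R : Finset Q)
    (hB : ∀ p ∈ R, ∀ q ∈ R, ∃ m : List A, m.length ≤ B ∧ act δ m p = act δ m q ∧
      ∀ x ∈ R, act δ m x ∈ R) (k : ℕ) :
    ∀ S ⊆ R, S.card ≤ k + 1 → ∃ m : List A, m.length ≤ k * B ∧
      (S.image (act δ m)).card ≤ 1 := by
  induction k with
  | zero =>
    intro S _ hS
    exact ⟨[], by simp, card_image_le.trans hS⟩
  | succ k ih =>
    intro S hSR hS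
    rw [Nat.succ_mul]
    by_cases h : S.card ≤ k + 1
    · obtain ⟨m, h1, h2⟩ := ih S hSR h
      exact ⟨m, by omega, h2⟩
    obtain ⟨p, hp, q, hq, hpq⟩ := one_lt_card.1 (show 1 < S.card by omega)
    obtain ⟨m, h1, h2, h3⟩ := hB p (hSR hp) q (hSR hq)
    have hlt : (S.image (act δ m)).card < S.card := by
      refine lt_of_le_of_ne card_image_le fun he => hpq ?_
      exact card_image_iff.1 he hp hq h2
    obtain ⟨m', h4, h5⟩ := ih (S.image (act δ m)) (fun y hy => by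
      obtain ⟨x, hx, rfl⟩ := mem_image.1 hy
      exact h3 x (hSR hx)) (by omega)
    refine ⟨m ++ m', by simp only [List.length_append]; omega, ?_⟩
    rw [image_image] at h5
    have : act δ (m ++ m') = act δ m' ∘ act δ m := funext fun x => act_append δ _ _ x
    rw [this]
    exact h5

theorem main {s : List A} (hs : (im δ s).card = 1) (hw : w ≠ []) :
    ∃ z : List A, (im δ z).card = 1 ∧ z.length ≤ w.length + ((im δ w).card - 1) *
      (w.length * (im δ w).card.choose 2 + 2 * Fintype.card Q * (im δ w).card) := by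
  have hs' : ∀ x y, act δ s x = act δ s y := fun x y =>
    card_le_one.1 hs.le _ (act_mem_im δ s x) _ (act_mem_im δ s y)
  obtain ⟨y, hy⟩ := card_pos.1 (hs.ge.trans_lt' Nat.zero_lt_one)
  have hne : ∀ u : List A, 0 < (im δ u).card := fun u => card_pos.2 ⟨_, act_mem_im δ u y⟩
  obtain ⟨m, h1, h2⟩ := greedy δ (im δ w)
    (fun p hp q hq => by
      obtain ⟨m, a, b, c⟩ := mer_word δ w (dd_mer δ w hs' hp hq)
      exact ⟨m, a.trans_le (dd_bound δ w hs' hw hp hq), b, c⟩) ((im δ w).card - 1) (im δ w)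
      (Subset.refl _) (by omega)
  refine ⟨w ++ m, le_antisymm (by rw [im_append]; exact h2) (hne _), ?_⟩
  rw [List.length_append]
  omega

end Pool.Agent.Lib.SmallRank
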