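import Pool.Agent.Lib.MP_30c8ab_lc.Base

/-!
Counting the classes at each level, and the top level is a single point.
-/

namespace Pool.Agent.Lib.SmallRank

open Finset

variable {Q A : Type} (δ : Q → A → Q) [Fintype Q] [DecidableEq Q]

open Classical in
/-- states reachable from `S` by words shorter than `i` -/
noncomputable def W (S : Finset Q) (i : ℕ) : Finset Q :=
  univ.filter fun z => ∃ b ∈ S, ∃ u : List A, u.length < i ∧ act δ u b = z

lemma mem_W {S : Finset Q} {z : Q} {i : ℕ} :
    z ∈ W δ S i ↔ ∃ b ∈ S, ∃ u : List A, u.length < i ∧ act δ u b = z := by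
  simp [W]

lemma W_mono (S : Finset Q) (i : ℕ) : W δ S i ⊆ W δ S (i + 1) := by
  intro z hz
  obtain ⟨b, hb, u, hu, he⟩ := (mem_W δ).1 hz
  exact (mem_W δ).2 ⟨b, hb, u, by omega, he⟩

lemma W_grow {s : List A} (hs : ∀ x y, act δ s x = act δ s y) (S : Finset Q) (j : ℕ) (κ : Q → Q)
    (hκ : ∀ b ∈ S, ∀ u : List A, u.length ≤ j → κ (act δ u b) = κ b) :
    (W δ S j).card + (S.image κ).card ≤ (W δ S (j + 1)).card + 1 := by
  rcases S.eq_empty_or_nonempty with h0 | ⟨b1, hb1⟩
  · have := card_le_card (W_mono δ S j)
    rw [h0] at this ⊢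
    simp only [image_empty, card_empty]
    omega
  have hsub : S.image κ ⊆ insert (κ (act δ s b1)) ((W δ S (j + 1) \ W δ S j).image κ) := by
    intro a ha
    obtain ⟨b0, hb0, rfl⟩ := mem_image.1 ha
    rw [mem_insert, or_iff_not_imp_right]
    intro hno
    have hin : ∀ z ∈ W δ S (j + 1), κ z = κ b0 → z ∈ W δ S j := by
      intro z hz he
      by_contra hz'
      exact hno (mem_image.2 ⟨z, mem_sdiff.2 ⟨hz, hz'⟩, he⟩)
    have hall : ∀ u : List A, act δ u b0 ∈ W δ S j ∧ κ (act δ u b0) = κ b0 := by
      intro u
      induction u using List.reverseRecOn with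
      | nil => exact ⟨hin _ ((mem_W δ).2 ⟨b0, hb0, [], by simp, rfl⟩) rfl, rfl⟩
      | append_singleton u x ihu =>
        obtain ⟨b, hb, v, hv, hve⟩ := (mem_W δ).1 ihu.1
        have e1 : act δ (u ++ [x]) b0 = act δ (v ++ [x]) b := by rw [act_append, act_append, hve]
        have e2 : κ (act δ (u ++ [x]) b0) = κ b0 := by
          rw [e1, hκ b hb _ (by simpa using hv), ← hκ b hb v hv.le, hve, ihu.2]
        exact ⟨hin _ ((mem_W δ).2 ⟨b, hb, v ++ [x], by simpa using hv, e1.symm⟩) e2, e2⟩
    rw [hs b1 b0]
    exact (hall s).2.symm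
  have h1 := (card_le_card hsub).trans (card_insert_le _ _)
  have h2 : ((W δ S (j + 1) \ W δ S j).image κ).card ≤ _ := card_image_le
  have h3 := card_sdiff_add_card_eq_card (W_mono δ S j)
  omega

lemma sum_classes {s : List A} (hs : ∀ x y, act δ s x = act δ s y) (S : Finset Q) (J : ℕ)
    (κ : ℕ → Q → Q)
    (hκ : ∀ j < J, ∀ b ∈ S, ∀ u : List A, u.length ≤ j → κ j (act δ u b) = κ j b) :
    ∑ j ∈ range J, (S.image (κ j)).card ≤ Fintype.card Q + J := by
  have : ∑ j ∈ range J, (S.image (κ j)).card ≤ (W δ S J).card + J := by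
    induction J with
    | zero => simp
    | succ J ih =>
      have h1 := ih fun j hj => hκ j (by omega)
      have h2 := W_grow δ hs S J (κ J) (hκ J (by omega))
      rw [sum_range_succ]
      omega
  exact this.trans (Nat.add_le_add_right (card_le_univ _) _)

variable (w : List A)

/-- the push-forward of the indicator of `S` -/
noncomputable def vec (S : Finset Q) (u : List A) : Q →₀ ℚ :=
  ∑ c ∈ S, Finsupp.single (act δ u c) 1

/-- span of the vectors of the words shorter than `i` -/
noncomputable def V (S : Finset Q) (i : ℕ) : Submodule ℚ (Q →₀ ℚ) :=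
  Submodule.span ℚ {y | ∃ u : List A, u.length < i ∧ vec δ S u = y}

lemma V_mono (S : Finset Q) (i : ℕ) : V δ S i ≤ V δ S (i + 1) := by
  refine Submodule.span_mono ?_
  rintro y ⟨u, hu, rfl⟩
  exact ⟨u, by omega, rfl⟩

lemma vec_snoc (S : Finset Q) (u : List A) (x : A) :
    Finsupp.lmapDomain ℚ ℚ (fun z => δ z x) (vec δ S u) = vec δ S (u ++ [x]) := by
  unfold vec
  rw [map_sum]
  refine sum_congr rfl fun c _ => ?_
  rw [Finsupp.lmapDomain_apply, Finsupp.mapDomain_single, act_append]
  rfl

lemma V_grow (S : Finset Q) (i : ℕ) :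
    i ≤ Module.finrank ℚ (V δ S i) ∨ ∀ u : List A, vec δ S u ∈ V δ S i := by
  induction i with
  | zero => left; exact Nat.zero_le _
  | succ i ih =>
    rcases ih with h | h
    · by_cases he : V δ S (i + 1) = V δ S i
      · right
        intro u
        induction u using List.reverseRecOn with
        | nil => exact Submodule.subset_span ⟨[], by simp, rfl⟩
        | append_singleton u x ihu =>
          rw [he] at ihu
          rw [← vec_snoc]
          have : (V δ S i).map (Finsupp.lmapDomain ℚ ℚ (fun z => δ z x)) ≤ V δ S (i + 1) := by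
            rw [V, Submodule.map_span_le]
            rintro y ⟨v, hv, rfl⟩
            rw [vec_snoc]
            exact Submodule.subset_span ⟨v ++ [x], by simpa using hv, rfl⟩
          exact this (Submodule.mem_map_of_mem ihu)
      · left
        have := Submodule.finrank_lt_finrank_of_lt (lt_of_le_of_ne (V_mono δ S i) (Ne.symm he))
        omega
    · right
      exact fun u => V_mono δ S i (h u)

lemma sum_vanish (S : Finset Q) (φ : Q → ℚ)
    (h : ∀ u : List A, u.length ≤ Fintype.card Q → ∑ c ∈ S, φ (act δ u c) = 0) (u : List A) :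
    ∑ c ∈ S, φ (act δ u c) = 0 := by
  have hΦ : ∀ u : List A, Finsupp.linearCombination ℚ φ (vec δ S u) = ∑ c ∈ S, φ (act δ u c) := by
    intro u
    unfold vec
    rw [map_sum]
    refine sum_congr rfl fun c _ => ?_
    rw [Finsupp.linearCombination_single, one_smul]
  have hle : Module.finrank ℚ (V δ S (Fintype.card Q + 1)) ≤ Fintype.card Q := by
    have := Submodule.finrank_le (V δ S (Fintype.card Q + 1))
    rwa [Module.finrank_finsupp_self] at this
  have hall := (V_grow δ S (Fintype.card Q + 1)).resolve_left (by omega) u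
  have hker : V δ S (Fintype.card Q + 1) ≤ LinearMap.ker (Finsupp.linearCombination ℚ φ) := by
    rw [V, Submodule.span_le]
    rintro y ⟨v, hv, rfl⟩
    rw [SetLike.mem_coe, LinearMap.mem_ker, hΦ]
    exact h v (by omega)
  rw [← hΦ]
  exact LinearMap.mem_ker.1 (hker hall)

/-- the top level is a single point -/
lemma top_single {s : List A} (hs : ∀ x y, act δ s x = act δ s y) :
    (C δ w (Fintype.card Q + 1)).card ≤ 1 := by
  set n := Fintype.card Q with hn
  set S := C δ w (n + 1) with hS
  set f := ff δ w (n + 1) with hf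
  rcases S.eq_empty_or_nonempty with h0 | ⟨q, hq⟩
  · rw [h0]; simp
  have key := sum_vanish δ S (fun z => (S.card : ℚ) * (if act δ f z = q then 1 else 0) - 1)
    (fun u hu => by
      have hg : Gen (ff δ w n) n (u ++ ff δ w n ++ opt δ (ff δ w n) n) :=
        Gen.cons u _ hu (opt_gen δ _ _)
      have hinj := gen_inj δ w hg
      have he : ∀ c, act δ (u ++ ff δ w n ++ opt δ (ff δ w n) n) c = act δ f (act δ u c) := by
        intro c
        rw [List.append_assoc, act_append]
        rfl
      have hinj' : Set.InjOn (fun c => act δ f (act δ u c)) S := by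
        intro a ha b hb hab
        exact hinj ha hb (by rw [he, he]; exact hab)
      have himg : S.image (fun c => act δ f (act δ u c)) = S := by
        refine eq_of_subset_of_card_le ?_ (card_image_of_injOn hinj').ge
        intro y hy
        obtain ⟨c, -, rfl⟩ := mem_image.1 hy
        exact act_mem_im δ _ _
      have h1 : ∑ c ∈ S, (if act δ f (act δ u c) = q then (1 : ℚ) else 0) = 1 := by
        have := sum_image (s := S) (g := fun c => act δ f (act δ u c))
          (f := fun y => if y = q then (1 : ℚ) else 0) hinj'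
        rw [← this, himg, sum_ite_eq']
        simp [hq]
      rw [sum_sub_distrib, ← mul_sum, h1]
      simp) s
  have hc : ∀ c ∈ S, (S.card : ℚ) * (if act δ f (act δ s c) = q then 1 else 0) - 1 =
      (S.card : ℚ) * (if act δ f (act δ s q) = q then 1 else 0) - 1 := by
    intro c _
    rw [hs c q]
  rw [sum_congr rfl hc, sum_const, nsmul_eq_mul] at key
  have hpos : (0 : ℚ) < S.card := by exact_mod_cast card_pos.2 ⟨q, hq⟩
  have h2 := (mul_eq_zero.1 key).resolve_left hpos.ne'
  split_ifs at h2
  · have : (S.card : ℚ) = 1 := by linarith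
    exact_mod_cast this.le
  · norm_num at h2

end Pool.Agent.Lib.SmallRank
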